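import Pool.Agent.P.MP_df4ecf_al.GrLemmas

/-!
The graded Lie ring of the lower central series, the free Lie ring on an abelian group, the natural
map between them, and the group of IA-automorphisms of a free group.
-/

namespace Pool.Agent.P.MP_df4ecf_al

universe u v

/-- The graded Lie ring of the lower central series of `G`. -/
noncomputable instance instLieRingGr (G : Type u) [Group G] : LieRing (Gr G) where
  toAddCommGroup := DirectSum.instAddCommGroup (β := Piece G)
  bracket := sumBracket (pieceBracket G)
  add_lie x y z := (sumBracket_add_left x y z).trans rfl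
  lie_add x y z := (sumBracket_add_right x y z).trans rfl
  lie_self x := (sumBracket_self x).trans rfl
  leibniz_lie x y z := (sumBracket_leibniz x y z).trans rfl

/-- The inclusion of the degree one part. -/
noncomputable def inclOne (G : Type u) [Group G] : Piece G 0 →+ Gr G := DirectSum.of (Piece G) 0

/-- The Lie ideal of the free Lie ring on the set `V` that makes the generators additive. -/
noncomputable def additivityIdeal (V : Type u) [AddCommGroup V] :
    LieIdeal ℤ (FreeLieAlgebra ℤ V) :=
  LieSubmodule.lieSpan ℤ (FreeLieAlgebra ℤ V)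
    {z | ∃ a b : V, z = FreeLieAlgebra.of ℤ (a + b) - FreeLieAlgebra.of ℤ a - FreeLieAlgebra.of ℤ b}

/-- The free Lie ring on the abelian group `V`. -/
abbrev FreeLieRing (V : Type u) [AddCommGroup V] : Type u :=
  FreeLieAlgebra ℤ V ⧸ additivityIdeal V

/-- The generator of the free Lie ring attached to an element of `V`. -/
noncomputable def FreeLieRing.gen {V : Type u} [AddCommGroup V] (a : V) : FreeLieRing V :=
  LieSubmodule.Quotient.mk (FreeLieAlgebra.of ℤ a)

/-- The degree two part of the free Lie ring on `V`. -/
noncomputable def FreeLieRing.degTwo (V : Type u) [AddCommGroup V] :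
    AddSubgroup (FreeLieRing V) :=
  AddSubgroup.closure {z | ∃ a b : V, z = ⁅FreeLieRing.gen a, FreeLieRing.gen b⁆}

/-- The Lie ring homomorphism out of the free Lie ring on `V` that extends an additive map. -/
noncomputable def FreeLieRing.extend {V : Type u} [AddCommGroup V] {L : Type v} [LieRing L]
    (f : V →+ L) : FreeLieRing V →ₗ⁅ℤ⁆ L where
  toLinearMap := (additivityIdeal V).toSubmodule.liftQ (FreeLieAlgebra.lift ℤ f).toLinearMap (by
    have : additivityIdeal V ≤ (FreeLieAlgebra.lift ℤ (f : V → L)).ker :=
      LieSubmodule.lieSpan_le.2 (by rintro _ ⟨a, b, rfl⟩; exact LieHom.mem_ker.2 (by simp))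
    exact this)
  map_lie' := by rintro ⟨x⟩ ⟨y⟩; exact (FreeLieAlgebra.lift ℤ (f : V → L)).map_lie x y

/-- The Lie ideal generated by the degree two part of the kernel of the extension of `f`. -/
noncomputable def quadIdeal {V : Type u} [AddCommGroup V] {L : Type v} [LieRing L] (f : V →+ L) :
    LieIdeal ℤ (FreeLieRing V) :=
  LieSubmodule.lieSpan ℤ (FreeLieRing V)
    {z | FreeLieRing.extend f z = 0 ∧ z ∈ FreeLieRing.degTwo V}

/-- Every element of the kernel of the extension of `f` has a nonzero integer multiple in the Lie
ideal generated by the degree two part of the kernel. -/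
def QuadraticUpToTorsion {V : Type u} [AddCommGroup V] {L : Type v} [LieRing L] (f : V →+ L) :
    Prop :=
  ∀ r : FreeLieRing V, FreeLieRing.extend f r = 0 → ∃ m : ℤ, m ≠ 0 ∧ m • r ∈ quadIdeal f

/-- The automorphisms of the free group of rank `n` that act trivially on its abelianization. -/
def IA (n : ℕ) : Subgroup (MulAut (FreeGroup (Fin n))) where
  carrier := {φ | ∀ x, Abelianization.of (φ x) = Abelianization.of x}
  one_mem' := fun _ => rfl
  mul_mem' := fun {φ ψ} hφ hψ x => (hφ (ψ x)).trans (hψ x)
  inv_mem' := fun {φ} hφ x => by simpa using (hφ (φ⁻¹ x)).symm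

end Pool.Agent.P.MP_df4ecf_al
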