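import Pool.Agent.P.MP_df4ecf_al.GroupLemmas

/-!
The graded abelian group of the lower central series of a group and its commutator bracket.
Index `k` here is degree `k + 1` in the classical numbering.
-/

namespace Pool.Agent.P.MP_df4ecf_al

open scoped commutatorElement DirectSum

universe u

/-- The lower central series of `G`, numbered from 0 as in Mathlib. -/
abbrev lcs (G : Type u) [Group G] (k : ℕ) : Subgroup G := (⊤ : Subgroup G).lowerCentralSeries k

/-- The quotient of the `k`-th term of the lower central series by the next term, written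
additively: the homogeneous piece of degree `k + 1`. -/
def Piece (G : Type u) [Group G] (k : ℕ) : Type u :=
  Additive (lcs G k ⧸ (lcs G (k + 1)).subgroupOf (lcs G k))

instance instAddCommGroupPiece (G : Type u) [Group G] (k : ℕ) : AddCommGroup (Piece G k) where
  toAddGroup := Additive.addGroup
  add_comm x y := (lcs_quot_comm k x y).trans rfl

/-- The group commutator, descended to the pieces. -/
def pieceBracket (G : Type u) [Group G] (i j : ℕ) :
    Piece G i → Piece G j → Piece G (i + j + 1) :=
  Quotient.map₂ (fun (a : lcs G i) (b : lcs G j) =>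
      (⟨⁅(a : G), (b : G)⁆, lcs_comm_mem a.2 b.2⟩ : lcs G (i + j + 1)))
    (fun a a' ha b b' hb => Iff.rfl.1 (lcs_comm_rel i j a a' ha b b' hb _ _))

/-- The extension to a direct sum of a family of brackets on the summands. -/
noncomputable def sumBracket {A : ℕ → Type u} [∀ k, AddCommGroup (A k)]
    (β : ∀ i j, A i → A j → A (i + j + 1)) (x y : ⨁ k, A k) : ⨁ k, A k :=
  ∑ᶠ (i : ℕ) (j : ℕ), DirectSum.of A (i + j + 1) (β i j (x i) (y j))

/-- The direct sum of all pieces. -/
def Gr (G : Type u) [Group G] : Type u := ⨁ k : ℕ, Piece G k

end Pool.Agent.P.MP_df4ecf_al
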