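import Pool.Agent.P.MP_df4ecf_al.GrDefs

/-!
The Lie ring axioms for the commutator bracket on the graded group.
-/

namespace Pool.Agent.P.MP_df4ecf_al

open scoped commutatorElement DirectSum

universe u
variable {G : Type u} [Group G]

/-- The commutator as a biadditive map on the pieces. -/
def pieceHom (G : Type u) [Group G] (i j : ℕ) : Piece G i →+ Piece G j →+ Piece G (i + j + 1) :=
  AddMonoidHom.mk'
    (fun x => AddMonoidHom.mk' (fun y => pieceBracket G i j x y)
      (by rintro ⟨b⟩ ⟨b'⟩; obtain ⟨a⟩ := x; exact lcs_mk_mul_right i j a b b'))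
    (by rintro ⟨a⟩ ⟨a'⟩; ext ⟨b⟩; exact lcs_mk_mul_left i j a a' b)

/-- The biadditive extension of the commutator brackets of the pieces. -/
def grBracket (G : Type u) [Group G] :
    (⨁ k, Piece G k) →+ (⨁ k, Piece G k) →+ (⨁ k, Piece G k) :=
  DirectSum.toAddMonoid fun i => AddMonoidHom.flip <|
    DirectSum.toAddMonoid fun j => AddMonoidHom.flip <|
      (DirectSum.of (Piece G) (i + j + 1)).compHom.comp (pieceHom G i j)

/-- The class in a piece of an element of the `k`-th term. -/
def pcls (k : ℕ) (g : G) (h : g ∈ (⊤ : Subgroup G).lowerCentralSeries k) : Piece G k :=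
  Additive.ofMul (QuotientGroup.mk ⟨g, h⟩)

/-- The class in the graded group of an element of the `k`-th term. -/
def cls (k : ℕ) (g : G) (h : g ∈ (⊤ : Subgroup G).lowerCentralSeries k) : ⨁ k, Piece G k :=
  DirectSum.of (Piece G) k (pcls k g h)

theorem cls_cast {k l : ℕ} (e : k = l) (g : G) (h : g ∈ (⊤ : Subgroup G).lowerCentralSeries k) :
    cls k g h = cls l g (e ▸ h) := by
  subst e; rfl

theorem cls_mul (k : ℕ) (a b : G) (ha : a ∈ (⊤ : Subgroup G).lowerCentralSeries k)
    (hb : b ∈ (⊤ : Subgroup G).lowerCentralSeries k) :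
    cls k (a * b) (mul_mem ha hb) = cls k a ha + cls k b hb := by
  unfold cls
  rw [← map_add]
  rfl

theorem cls_congr (k : ℕ) {a b : G} (ha : a ∈ (⊤ : Subgroup G).lowerCentralSeries k)
    (hb : b ∈ (⊤ : Subgroup G).lowerCentralSeries k)
    (h : a⁻¹ * b ∈ (⊤ : Subgroup G).lowerCentralSeries (k + 1)) :
    cls k a ha = cls k b hb := by
  unfold cls pcls
  congr 2
  exact QuotientGroup.eq.2 h

theorem cls_one (k : ℕ) (h : (1 : G) ∈ (⊤ : Subgroup G).lowerCentralSeries k) :
    cls k 1 h = 0 := by
  unfold cls
  exact map_zero (DirectSum.of (Piece G) k)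

theorem cls_eq_zero (k : ℕ) {a : G} (ha : a ∈ (⊤ : Subgroup G).lowerCentralSeries k)
    (h : a = 1) : cls k a ha = 0 := by
  subst h; exact cls_one k _

theorem cls_inv (k : ℕ) (a : G) (ha : a ∈ (⊤ : Subgroup G).lowerCentralSeries k) :
    cls k a⁻¹ (inv_mem ha) = - cls k a ha := by
  rw [eq_neg_iff_add_eq_zero, ← cls_mul]
  exact cls_eq_zero k _ (inv_mul_cancel a)

theorem cls_conj (k : ℕ) (a g : G) (ha : a ∈ (⊤ : Subgroup G).lowerCentralSeries k)
    (h : g * a * g⁻¹ ∈ (⊤ : Subgroup G).lowerCentralSeries k) :
    cls k (g * a * g⁻¹) h = cls k a ha :=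
  (cls_congr k ha h (lcs_conj_mem ha g)).symm

theorem grBracket_incl (i j : ℕ) (x : Piece G i) (y : Piece G j) :
    grBracket G (DirectSum.of (Piece G) i x) (DirectSum.of (Piece G) j y) =
      DirectSum.of (Piece G) (i + j + 1) (pieceBracket G i j x y) := by
  unfold grBracket
  rw [DirectSum.toAddMonoid_of, AddMonoidHom.flip_apply, DirectSum.toAddMonoid_of]
  rfl

theorem grBracket_cls (i j : ℕ) (a b : G) (ha : a ∈ (⊤ : Subgroup G).lowerCentralSeries i)
    (hb : b ∈ (⊤ : Subgroup G).lowerCentralSeries j) :
    grBracket G (cls i a ha) (cls j b hb) = cls (i + j + 1) ⁅a, b⁆ (lcs_comm_mem ha hb) := by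
  unfold cls
  rw [grBracket_incl]
  rfl

theorem gr_induction {P : (⨁ k, Piece G k) → Prop} (x : ⨁ k, Piece G k) (h0 : P 0)
    (hc : ∀ k g h, P (cls k g h)) (hadd : ∀ x y, P x → P y → P (x + y)) : P x := by
  induction x using DirectSum.induction_on with
  | zero => exact h0
  | of k x => obtain ⟨⟨g, h⟩⟩ := x; exact hc k g h
  | add x y hx hy => exact hadd x y hx hy

theorem grBracket_skew (x y : ⨁ k, Piece G k) : grBracket G x y = - grBracket G y x := by
  induction x using gr_induction with
  | h0 => simp
  | hadd x x' hx hx' => simp only [map_add, AddMonoidHom.add_apply, hx, hx', neg_add]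
  | hc i a ha =>
    induction y using gr_induction with
    | h0 => simp
    | hadd y y' hy hy' => simp only [map_add, AddMonoidHom.add_apply, hy, hy', neg_add]
    | hc j b hb =>
      rw [grBracket_cls, grBracket_cls, ← cls_inv,
        cls_cast (show j + i + 1 = i + j + 1 by ring)]
      simp only [commutatorElement_inv]

theorem grBracket_self (x : ⨁ k, Piece G k) : grBracket G x x = 0 := by
  induction x using gr_induction with
  | h0 => simp
  | hadd x y hx hy =>
    simp only [map_add, AddMonoidHom.add_apply, hx, hy, zero_add, add_zero]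
    rw [grBracket_skew x y]
    simp
  | hc i a ha =>
    rw [grBracket_cls]
    exact cls_eq_zero _ _ (commutatorElement_self a)

theorem grBracket_jacobi (x y z : ⨁ k, Piece G k) :
    grBracket G (grBracket G x y) z + grBracket G (grBracket G y z) x +
      grBracket G (grBracket G z x) y = 0 := by
  induction x using gr_induction with
  | h0 => simp
  | hadd x x' hx hx' =>
    simp only [map_add, AddMonoidHom.add_apply]
    have := congrArg₂ (· + ·) hx hx'
    simp only [add_zero] at this
    rw [← this]; abel
  | hc i a ha =>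
    induction y using gr_induction with
    | h0 => simp
    | hadd y y' hy hy' =>
      simp only [map_add, AddMonoidHom.add_apply]
      have := congrArg₂ (· + ·) hy hy'
      simp only [add_zero] at this
      rw [← this]; abel
    | hc j b hb =>
      induction z using gr_induction with
      | h0 => simp
      | hadd z z' hz hz' =>
        simp only [map_add, AddMonoidHom.add_apply]
        have := congrArg₂ (· + ·) hz hz'
        simp only [add_zero] at this
        rw [← this]; abel
      | hc k c hc =>
        have hc' : b * c * b⁻¹ ∈ (⊤ : Subgroup G).lowerCentralSeries k :=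
          Subgroup.Normal.conj_mem inferInstance _ hc _
        have ha' : c * a * c⁻¹ ∈ (⊤ : Subgroup G).lowerCentralSeries i :=
          Subgroup.Normal.conj_mem inferInstance _ ha _
        have hb' : a * b * a⁻¹ ∈ (⊤ : Subgroup G).lowerCentralSeries j :=
          Subgroup.Normal.conj_mem inferInstance _ hb _
        have e1 : grBracket G (grBracket G (cls i a ha) (cls j b hb)) (cls k c hc) =
            cls (i + j + 1 + k + 1) ⁅⁅a, b⁆, b * c * b⁻¹⁆
              (lcs_comm_mem (lcs_comm_mem ha hb) hc') := by
          rw [grBracket_cls, ← cls_conj k c b hc hc', grBracket_cls]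
        have e2 : grBracket G (grBracket G (cls j b hb) (cls k c hc)) (cls i a ha) =
            cls (j + k + 1 + i + 1) ⁅⁅b, c⁆, c * a * c⁻¹⁆
              (lcs_comm_mem (lcs_comm_mem hb hc) ha') := by
          rw [grBracket_cls, ← cls_conj i a c ha ha', grBracket_cls]
        have e3 : grBracket G (grBracket G (cls k c hc) (cls i a ha)) (cls j b hb) =
            cls (k + i + 1 + j + 1) ⁅⁅c, a⁆, a * b * a⁻¹⁆
              (lcs_comm_mem (lcs_comm_mem hc ha) hb') := by
          rw [grBracket_cls, ← cls_conj j b a hb hb', grBracket_cls]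
        have n1 : j + k + 1 + i + 1 = i + j + 1 + k + 1 := by omega
        have n2 : k + i + 1 + j + 1 = i + j + 1 + k + 1 := by omega
        rw [e1, e2, e3, cls_cast n1, cls_cast n2, ← cls_mul, ← cls_mul]
        exact cls_eq_zero _ _ (commutatorElement_commutatorElement_conj_mul a b c)

theorem grBracket_leibniz (x y z : ⨁ k, Piece G k) :
    grBracket G x (grBracket G y z) =
      grBracket G (grBracket G x y) z + grBracket G y (grBracket G x z) := by
  have h := grBracket_jacobi x y z
  rw [grBracket_skew (grBracket G y z) x, grBracket_skew (grBracket G z x) y,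
    grBracket_skew z x, map_neg, neg_neg] at h
  rw [← sub_eq_zero, ← neg_eq_zero, ← h]; abel

theorem sumBracket_eq (x y : ⨁ k, Piece G k) :
    sumBracket (pieceBracket G) x y = grBracket G x y := by
  classical
  unfold sumBracket
  have h0l : ∀ i j (b : Piece G j), pieceBracket G i j 0 b = 0 := fun i j b => by
    change pieceHom G i j 0 b = 0
    simp
  have h0r : ∀ i j (a : Piece G i), pieceBracket G i j a 0 = 0 := fun i j a => by
    change pieceHom G i j a 0 = 0
    simp
  have inner : ∀ i, ∑ᶠ j, DirectSum.of (Piece G) (i + j + 1) (pieceBracket G i j (x i) (y j)) =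
      ∑ j ∈ DFinsupp.support y,
        DirectSum.of (Piece G) (i + j + 1) (pieceBracket G i j (x i) (y j)) := by
    intro i
    apply finsum_eq_sum_of_support_subset
    intro j hj
    by_contra hc
    apply hj
    have : y j = 0 := by simpa using hc
    simp [this, h0r]
  simp only [inner]
  rw [finsum_eq_sum_of_support_subset (s := DFinsupp.support x)]
  · conv_rhs => rw [← DirectSum.sum_support_of x, ← DirectSum.sum_support_of y]
    simp only [map_sum, AddMonoidHom.finsetSum_apply, grBracket_incl]
    rw [Finset.sum_comm]
  · intro i hi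
    by_contra hc
    apply hi
    have : x i = 0 := by simpa using hc
    simp [this, h0l]

theorem sumBracket_add_left (x y z : ⨁ k, Piece G k) : sumBracket (pieceBracket G) (x + y) z =
    sumBracket (pieceBracket G) x z + sumBracket (pieceBracket G) y z := by
  simp only [sumBracket_eq, map_add, AddMonoidHom.add_apply]

theorem sumBracket_add_right (x y z : ⨁ k, Piece G k) : sumBracket (pieceBracket G) x (y + z) =
    sumBracket (pieceBracket G) x y + sumBracket (pieceBracket G) x z := by
  simp only [sumBracket_eq, map_add]

theorem sumBracket_self (x : ⨁ k, Piece G k) : sumBracket (pieceBracket G) x x = 0 := by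
  rw [sumBracket_eq, grBracket_self]

theorem sumBracket_leibniz (x y z : ⨁ k, Piece G k) :
    sumBracket (pieceBracket G) x (sumBracket (pieceBracket G) y z) =
      sumBracket (pieceBracket G) (sumBracket (pieceBracket G) x y) z +
        sumBracket (pieceBracket G) y (sumBracket (pieceBracket G) x z) := by
  simp only [sumBracket_eq]
  exact grBracket_leibniz x y z

end Pool.Agent.P.MP_df4ecf_al
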