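import Mathlib

/-!
Pure group theory about the lower central series, stated with Mathlib notions only.
Mathlib indexes the series from 0, so `lowerCentralSeries ⊤ k` is the classical term of index `k + 1`.
-/

namespace Pool.Agent.P.MP_df4ecf_al

open scoped commutatorElement
open Subgroup

universe u
variable {G : Type u} [Group G]

/-- Three subgroups lemma modulo a normal subgroup. -/
theorem three_subgroups (A B C N : Subgroup G) [N.Normal]
    (h1 : ⁅⁅B, C⁆, A⁆ ≤ N) (h2 : ⁅⁅C, A⁆, B⁆ ≤ N) : ⁅⁅A, B⁆, C⁆ ≤ N := by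
  have key : ∀ X : Subgroup G, X ≤ N ↔ X.map (QuotientGroup.mk' N) = ⊥ := by
    intro X
    rw [Subgroup.map_eq_bot_iff, QuotientGroup.ker_mk']
  rw [key] at h1 h2 ⊢
  simp only [Subgroup.map_commutator] at h1 h2 ⊢
  exact Subgroup.commutator_commutator_eq_bot_of_rotate h1 h2

theorem lcs_commutator_le (j : ℕ) : ∀ i : ℕ,
    ⁅(⊤ : Subgroup G).lowerCentralSeries i, (⊤ : Subgroup G).lowerCentralSeries j⁆ ≤
      (⊤ : Subgroup G).lowerCentralSeries (i + j + 1) := by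
  induction j with
  | zero => intro i; exact le_rfl
  | succ j ih =>
    intro i
    rw [Subgroup.commutator_comm, Subgroup.lowerCentralSeries_succ _ j]
    apply three_subgroups
    · rw [Subgroup.commutator_comm ⊤, ← Subgroup.lowerCentralSeries_succ]
      have := ih (i + 1)
      rwa [show i + 1 + j + 1 = i + (j + 1) + 1 by ring] at this
    · have : ⁅⁅(⊤ : Subgroup G).lowerCentralSeries i, (⊤ : Subgroup G).lowerCentralSeries j⁆,
          (⊤ : Subgroup G)⁆ ≤ ⁅(⊤ : Subgroup G).lowerCentralSeries (i + j + 1), (⊤ : Subgroup G)⁆ :=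
        Subgroup.commutator_mono (ih i) le_rfl
      exact this

theorem lcs_comm_mem {i j : ℕ} {a b : G} (ha : a ∈ (⊤ : Subgroup G).lowerCentralSeries i)
    (hb : b ∈ (⊤ : Subgroup G).lowerCentralSeries j) :
    ⁅a, b⁆ ∈ (⊤ : Subgroup G).lowerCentralSeries (i + j + 1) :=
  lcs_commutator_le j i (commutator_mem_commutator ha hb)

theorem lcs_succ_le (k : ℕ) :
    (⊤ : Subgroup G).lowerCentralSeries (k + 1) ≤ (⊤ : Subgroup G).lowerCentralSeries k :=
  Subgroup.lowerCentralSeries_antitone _ (Nat.le_succ k)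

theorem lcs_comm_top_mem {k : ℕ} {a : G} (ha : a ∈ (⊤ : Subgroup G).lowerCentralSeries k) (g : G) :
    ⁅a, g⁆ ∈ (⊤ : Subgroup G).lowerCentralSeries (k + 1) :=
  commutator_mem_commutator ha (mem_top g)

/-- Conjugating an element of the `k`-th term does not change its class modulo the next term. -/
theorem lcs_conj_mem {k : ℕ} {a : G} (ha : a ∈ (⊤ : Subgroup G).lowerCentralSeries k) (g : G) :
    a⁻¹ * (g * a * g⁻¹) ∈ (⊤ : Subgroup G).lowerCentralSeries (k + 1) := by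
  have h := lcs_comm_top_mem (inv_mem ha) g
  have e : ⁅a⁻¹, g⁆ = a⁻¹ * (g * a * g⁻¹) := by simp [commutatorElement_def, mul_assoc]
  rwa [e] at h

/-- The quotient of consecutive terms is commutative. -/
theorem lcs_quot_comm (k : ℕ)
    (x y : (⊤ : Subgroup G).lowerCentralSeries k ⧸
      ((⊤ : Subgroup G).lowerCentralSeries (k + 1)).subgroupOf
        ((⊤ : Subgroup G).lowerCentralSeries k)) : x * y = y * x := by
  induction x using QuotientGroup.induction_on with | H a => ?_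
  induction y using QuotientGroup.induction_on with | H b => ?_
  rw [← QuotientGroup.mk_mul, ← QuotientGroup.mk_mul, QuotientGroup.eq, mem_subgroupOf]
  have h := lcs_comm_top_mem (inv_mem b.2) (a : G)⁻¹
  have e : ⁅(b : G)⁻¹, (a : G)⁻¹⁆ = (((a * b)⁻¹ * (b * a) : _) : G) := by
    simp [commutatorElement_def, mul_assoc]
  rwa [e] at h

/-- The commutator is well defined on classes, left argument. -/
theorem lcs_comm_congr_left {i j : ℕ} {a a' b : G}
    (hb : b ∈ (⊤ : Subgroup G).lowerCentralSeries j)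
    (h : a⁻¹ * a' ∈ (⊤ : Subgroup G).lowerCentralSeries (i + 1)) :
    ⁅a, b⁆⁻¹ * ⁅a', b⁆ ∈ (⊤ : Subgroup G).lowerCentralSeries (i + j + 1 + 1) := by
  set u := a⁻¹ * a' with hu
  have e : a' = a * u := by simp [hu]
  have h1 : ⁅u, b⁆ ∈ (⊤ : Subgroup G).lowerCentralSeries (i + j + 1 + 1) := by
    have := lcs_comm_mem h hb
    rwa [show i + 1 + j + 1 = i + j + 1 + 1 by ring] at this
  have h2 : ⁅a, b⁆⁻¹ * ⁅a', b⁆ = (⁅a, b⁆⁻¹ * a) * ⁅u, b⁆ * (⁅a, b⁆⁻¹ * a)⁻¹ := by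
    rw [e, commutatorElement_mul_left_eq_conj_mul]; group
  rw [h2]
  exact Subgroup.Normal.conj_mem inferInstance _ h1 _

theorem lcs_comm_congr_right {i j : ℕ} {a b b' : G}
    (ha : a ∈ (⊤ : Subgroup G).lowerCentralSeries i)
    (h : b⁻¹ * b' ∈ (⊤ : Subgroup G).lowerCentralSeries (j + 1)) :
    ⁅a, b⁆⁻¹ * ⁅a, b'⁆ ∈ (⊤ : Subgroup G).lowerCentralSeries (i + j + 1 + 1) := by
  set u := b⁻¹ * b' with hu
  have e : b' = b * u := by simp [hu]
  have h1 : ⁅a, u⁆ ∈ (⊤ : Subgroup G).lowerCentralSeries (i + j + 1 + 1) := by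
    have := lcs_comm_mem ha h
    rwa [show i + (j + 1) + 1 = i + j + 1 + 1 by ring] at this
  have h2 : ⁅a, b⁆⁻¹ * ⁅a, b'⁆ = b * ⁅a, u⁆ * b⁻¹ := by
    rw [e, commutatorElement_mul_right_eq_mul_conj]; group
  rw [h2]
  exact Subgroup.Normal.conj_mem inferInstance _ h1 _

/-- The commutator respects the left coset relations. -/
theorem lcs_comm_rel (i j : ℕ)
    (a a' : (⊤ : Subgroup G).lowerCentralSeries i)
    (ha : QuotientGroup.leftRel (((⊤ : Subgroup G).lowerCentralSeries (i + 1)).subgroupOf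
      ((⊤ : Subgroup G).lowerCentralSeries i)) a a')
    (b b' : (⊤ : Subgroup G).lowerCentralSeries j)
    (hb : QuotientGroup.leftRel (((⊤ : Subgroup G).lowerCentralSeries (j + 1)).subgroupOf
      ((⊤ : Subgroup G).lowerCentralSeries j)) b b')
    (m : ⁅(a : G), (b : G)⁆ ∈ (⊤ : Subgroup G).lowerCentralSeries (i + j + 1))
    (m' : ⁅(a' : G), (b' : G)⁆ ∈ (⊤ : Subgroup G).lowerCentralSeries (i + j + 1)) :
    QuotientGroup.leftRel (((⊤ : Subgroup G).lowerCentralSeries (i + j + 1 + 1)).subgroupOf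
      ((⊤ : Subgroup G).lowerCentralSeries (i + j + 1)))
      ⟨⁅(a : G), (b : G)⁆, m⟩ ⟨⁅(a' : G), (b' : G)⁆, m'⟩ := by
  rw [QuotientGroup.leftRel_apply, mem_subgroupOf] at ha hb ⊢
  have h1 := lcs_comm_congr_left (a := (a : G)) b.2 (a' := (a' : G)) (by simpa using ha)
  have h2 := lcs_comm_congr_right (b := (b : G)) a'.2 (b' := (b' : G)) (by simpa using hb)
  have := mul_mem h1 h2
  rw [mul_assoc, mul_inv_cancel_left] at this
  exact this

theorem lcs_comm_mul_left {i j : ℕ} {a a' b : G}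
    (ha' : a' ∈ (⊤ : Subgroup G).lowerCentralSeries i)
    (hb : b ∈ (⊤ : Subgroup G).lowerCentralSeries j) :
    (⁅a', b⁆ * ⁅a, b⁆)⁻¹ * ⁅a * a', b⁆ ∈ (⊤ : Subgroup G).lowerCentralSeries (i + j + 1 + 1) := by
  have h1 := lcs_conj_mem (lcs_comm_mem ha' hb) a
  have h2 : (⁅a', b⁆ * ⁅a, b⁆)⁻¹ * ⁅a * a', b⁆ =
      ⁅a, b⁆⁻¹ * (⁅a', b⁆⁻¹ * (a * ⁅a', b⁆ * a⁻¹)) * ⁅a, b⁆⁻¹⁻¹ := by
    rw [commutatorElement_mul_left_eq_conj_mul]; group
  rw [h2]
  exact Subgroup.Normal.conj_mem inferInstance _ h1 _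

theorem lcs_comm_mul_right {i j : ℕ} {a b b' : G}
    (ha : a ∈ (⊤ : Subgroup G).lowerCentralSeries i)
    (hb' : b' ∈ (⊤ : Subgroup G).lowerCentralSeries j) :
    (⁅a, b⁆ * ⁅a, b'⁆)⁻¹ * ⁅a, b * b'⁆ ∈ (⊤ : Subgroup G).lowerCentralSeries (i + j + 1 + 1) := by
  have h1 := lcs_conj_mem (lcs_comm_mem ha hb') b
  have h2 : (⁅a, b⁆ * ⁅a, b'⁆)⁻¹ * ⁅a, b * b'⁆ = ⁅a, b'⁆⁻¹ * (b * ⁅a, b'⁆ * b⁻¹) := by
    rw [commutatorElement_mul_right_eq_mul_conj]; group
  rw [h2]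
  exact h1

theorem lcs_mk_mul_right (i j : ℕ) (a : (⊤ : Subgroup G).lowerCentralSeries i)
    (b b' : (⊤ : Subgroup G).lowerCentralSeries j) :
    (QuotientGroup.mk ⟨⁅(a : G), ((b * b' : _) : G)⁆, lcs_comm_mem a.2 (b * b').2⟩ :
      (⊤ : Subgroup G).lowerCentralSeries (i + j + 1) ⧸
        ((⊤ : Subgroup G).lowerCentralSeries (i + j + 1 + 1)).subgroupOf
          ((⊤ : Subgroup G).lowerCentralSeries (i + j + 1))) =
      QuotientGroup.mk ⟨⁅(a : G), (b : G)⁆, lcs_comm_mem a.2 b.2⟩ *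
        QuotientGroup.mk ⟨⁅(a : G), (b' : G)⁆, lcs_comm_mem a.2 b'.2⟩ := by
  rw [← QuotientGroup.mk_mul, eq_comm, QuotientGroup.eq, mem_subgroupOf]
  exact lcs_comm_mul_right a.2 b'.2

theorem lcs_mk_mul_left (i j : ℕ) (a a' : (⊤ : Subgroup G).lowerCentralSeries i)
    (b : (⊤ : Subgroup G).lowerCentralSeries j) :
    (QuotientGroup.mk ⟨⁅((a * a' : _) : G), (b : G)⁆, lcs_comm_mem (a * a').2 b.2⟩ :
      (⊤ : Subgroup G).lowerCentralSeries (i + j + 1) ⧸
        ((⊤ : Subgroup G).lowerCentralSeries (i + j + 1 + 1)).subgroupOf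
          ((⊤ : Subgroup G).lowerCentralSeries (i + j + 1))) =
      QuotientGroup.mk ⟨⁅(a : G), (b : G)⁆, lcs_comm_mem a.2 b.2⟩ *
        QuotientGroup.mk ⟨⁅(a' : G), (b : G)⁆, lcs_comm_mem a'.2 b.2⟩ := by
  rw [lcs_quot_comm, ← QuotientGroup.mk_mul, eq_comm, QuotientGroup.eq, mem_subgroupOf]
  exact lcs_comm_mul_left a'.2 b.2

end Pool.Agent.P.MP_df4ecf_al
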