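import Pool.Agent.P.MP_df4ecf_al.Defs

/-!
The Magnus expansion of the free group of rank three, truncated above degree three, and the
Heisenberg type cocycle on the IA-automorphism group that it produces.
-/

namespace Pool.Agent.P.MP_df4ecf_al

open scoped commutatorElement

/-- Noncommutative power series in three variables with constant term one, modulo degree four. -/
@[ext] structure Trunc where
  a1 : Fin 3 → ℤ
  a2 : Fin 3 → Fin 3 → ℤ
  a3 : Fin 3 → Fin 3 → Fin 3 → ℤ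

instance : Mul Trunc where
  mul a b := ⟨fun i => a.a1 i + b.a1 i, fun i j => a.a2 i j + b.a2 i j + a.a1 i * b.a1 j,
    fun i j k => a.a3 i j k + b.a3 i j k + a.a1 i * b.a2 j k + a.a2 i j * b.a1 k⟩

instance : One Trunc where
  one := ⟨fun _ => 0, fun _ _ => 0, fun _ _ _ => 0⟩

instance : Inv Trunc where
  inv a := ⟨fun i => - a.a1 i, fun i j => - a.a2 i j + a.a1 i * a.a1 j,
    fun i j k => - a.a3 i j k + a.a1 i * a.a2 j k + a.a2 i j * a.a1 k - a.a1 i * a.a1 j * a.a1 k⟩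

namespace Trunc

@[simp] theorem mul_a1 (a b : Trunc) (i) : (a * b).a1 i = a.a1 i + b.a1 i := rfl
@[simp] theorem mul_a2 (a b : Trunc) (i j) :
    (a * b).a2 i j = a.a2 i j + b.a2 i j + a.a1 i * b.a1 j := rfl
@[simp] theorem mul_a3 (a b : Trunc) (i j k) :
    (a * b).a3 i j k = a.a3 i j k + b.a3 i j k + a.a1 i * b.a2 j k + a.a2 i j * b.a1 k := rfl
@[simp] theorem one_a1 (i) : (1 : Trunc).a1 i = 0 := rfl
@[simp] theorem one_a2 (i j) : (1 : Trunc).a2 i j = 0 := rfl
@[simp] theorem one_a3 (i j k) : (1 : Trunc).a3 i j k = 0 := rfl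
@[simp] theorem inv_a1 (a : Trunc) (i) : (a⁻¹).a1 i = - a.a1 i := rfl
@[simp] theorem inv_a2 (a : Trunc) (i j) : (a⁻¹).a2 i j = - a.a2 i j + a.a1 i * a.a1 j := rfl
@[simp] theorem inv_a3 (a : Trunc) (i j k) : (a⁻¹).a3 i j k =
    - a.a3 i j k + a.a1 i * a.a2 j k + a.a2 i j * a.a1 k - a.a1 i * a.a1 j * a.a1 k := rfl

instance : Group Trunc := Group.ofLeftAxioms
  (by intro a b c; ext <;> simp <;> ring)
  (by intro a; ext <;> simp)
  (by intro a; ext <;> simp <;> ring)

/-- Substitution of `X l + D2 l + D3 l` for the variable `X l`. -/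
def subst (D2 : Fin 3 → Fin 3 → Fin 3 → ℤ) (D3 : Fin 3 → Fin 3 → Fin 3 → Fin 3 → ℤ) :
    Trunc →* Trunc :=
  MonoidHom.mk' (fun a => ⟨a.a1, fun i j => a.a2 i j + ∑ l, a.a1 l * D2 l i j,
    fun i j k => a.a3 i j k + ∑ l, a.a1 l * D3 l i j k + ∑ l, a.a2 i l * D2 l j k +
      ∑ l, a.a2 l k * D2 l i j⟩)
    (by intro a b; ext <;> simp [Fin.sum_univ_three] <;> ring)

/-- The linear part. -/
def lin : Trunc →* Multiplicative (Fin 3 → ℤ) :=
  MonoidHom.mk' (fun a => Multiplicative.ofAdd a.a1) (by intro a b; rfl)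

end Trunc

/-- The truncated Magnus expansion. -/
def magnus : FreeGroup (Fin 3) →* Trunc :=
  FreeGroup.lift fun l => ⟨fun i => if i = l then 1 else 0, fun _ _ => 0, fun _ _ _ => 0⟩

theorem magnus_of (l : Fin 3) : magnus (FreeGroup.of l) =
    ⟨fun i => if i = l then 1 else 0, fun _ _ => 0, fun _ _ _ => 0⟩ := by
  simp [magnus]

theorem magnus_diag (g : FreeGroup (Fin 3)) (j : Fin 3) :
    2 * (magnus g).a2 j j + (magnus g).a1 j = (magnus g).a1 j ^ 2 := by
  induction g using FreeGroup.induction_on with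
  | C1 => simp
  | of l => rw [magnus_of]; by_cases h : j = l <;> simp [h]
  | inv_of l _ => rw [map_inv, magnus_of]; by_cases h : j = l <;> simp [h]
  | mul a b ha hb => rw [map_mul]; simp; linarith

theorem magnus_a1_IA (φ : IA 3) (x : FreeGroup (Fin 3)) :
    (magnus ((φ : MulAut (FreeGroup (Fin 3))) x)).a1 = (magnus x).a1 := by
  have h := congrArg (Abelianization.lift (Trunc.lin.comp magnus)) (φ.2 x)
  simp only [Abelianization.lift_apply_of, MonoidHom.comp_apply] at h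
  exact h

/-- Degree two Magnus coefficients of an IA-automorphism. -/
def c2 (φ : IA 3) (l i j : Fin 3) : ℤ :=
  (magnus ((φ : MulAut (FreeGroup (Fin 3))) (FreeGroup.of l))).a2 i j

/-- Degree three Magnus coefficients of an IA-automorphism. -/
def c3 (φ : IA 3) (l i j k : Fin 3) : ℤ :=
  (magnus ((φ : MulAut (FreeGroup (Fin 3))) (FreeGroup.of l))).a3 i j k

theorem magnus_IA (φ : IA 3) (x : FreeGroup (Fin 3)) :
    magnus ((φ : MulAut (FreeGroup (Fin 3))) x) = Trunc.subst (c2 φ) (c3 φ) (magnus x) := by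
  have : magnus.comp (φ : MulAut (FreeGroup (Fin 3))).toMonoidHom =
      (Trunc.subst (c2 φ) (c3 φ)).comp magnus := by
    apply FreeGroup.ext_hom
    intro l
    have h1 := magnus_a1_IA φ (FreeGroup.of l)
    ext
    · simp [h1, Trunc.subst]
    · simp [Trunc.subst, magnus_of, c2]
    · simp [Trunc.subst, magnus_of, c3]
  exact DFunLike.congr_fun this x

theorem c2_diag (φ : IA 3) (l j : Fin 3) : c2 φ l j j = 0 := by
  have h := magnus_diag ((φ : MulAut (FreeGroup (Fin 3))) (FreeGroup.of l)) j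
  rw [magnus_a1_IA, magnus_of] at h
  unfold c2
  by_cases hj : j = l <;> simp [hj] at h ⊢ <;> simpa [hj] using h

theorem c2_mul (φ ψ : IA 3) (l i j : Fin 3) : c2 (φ * ψ) l i j = c2 φ l i j + c2 ψ l i j := by
  have h := magnus_IA φ ((ψ : MulAut (FreeGroup (Fin 3))) (FreeGroup.of l))
  have h1 := magnus_a1_IA ψ (FreeGroup.of l)
  have : c2 (φ * ψ) l i j = (magnus ((φ : MulAut (FreeGroup (Fin 3)))
      ((ψ : MulAut (FreeGroup (Fin 3))) (FreeGroup.of l)))).a2 i j := rfl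
  rw [this, h]
  simp [Trunc.subst, h1, magnus_of, c2, add_comm]

theorem c3_mul (φ ψ : IA 3) : c3 (φ * ψ) 0 1 1 2 = c3 φ 0 1 1 2 + c3 ψ 0 1 1 2 +
    (c2 φ 0 1 2 * c2 ψ 0 1 0 + c2 φ 2 1 2 * c2 ψ 0 1 2) := by
  have h := magnus_IA φ ((ψ : MulAut (FreeGroup (Fin 3))) (FreeGroup.of 0))
  have h1 := magnus_a1_IA ψ (FreeGroup.of 0)
  have : c3 (φ * ψ) 0 1 1 2 = (magnus ((φ : MulAut (FreeGroup (Fin 3)))
      ((ψ : MulAut (FreeGroup (Fin 3))) (FreeGroup.of 0)))).a3 1 1 2 := rfl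
  rw [this, h]
  have d := c2_diag ψ 0 1
  simp only [c2] at d
  simp [Trunc.subst, h1, magnus_of, Fin.sum_univ_three, c2_diag, d]
  simp only [c2, c3]
  ring

end Pool.Agent.P.MP_df4ecf_al
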