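import Pool.Agent.P.MP_df4ecf_al.Magnus

/-!
A cubic relation in the graded Lie ring of the IA-automorphism group of rank three that does not
follow from the quadratic relations.
-/

namespace Pool.Agent.P.MP_df4ecf_al

open scoped commutatorElement

attribute [local instance 100] LieRing.ofAssociativeRing

universe u v

section General

variable {G : Type u} [Group G]

theorem lift_gen {V : Type u} [AddCommGroup V] {L : Type v} [LieRing L] (f : V →+ L) (a : V) :
    FreeLieRing.extend f (FreeLieRing.gen a) = f a :=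
  FreeLieAlgebra.lift_of_apply (R := ℤ) (f : V → L) a

/-- The natural map. -/
noncomputable def natMap (G : Type u) [Group G] : FreeLieRing (Piece G 0) →ₗ⁅ℤ⁆ Gr G :=
  FreeLieRing.extend (inclOne G)

theorem natMap_gen (a : Piece G 0) : natMap G (FreeLieRing.gen a) = inclOne G a :=
  lift_gen (inclOne G) a

/-- The class of a group element, in the Lie ring. -/
def gcls (k : ℕ) (g : G) (h : g ∈ (⊤ : Subgroup G).lowerCentralSeries k) : Gr G := cls k g h

theorem lie_gcls (i j : ℕ) (a b : G) (ha : a ∈ (⊤ : Subgroup G).lowerCentralSeries i)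
    (hb : b ∈ (⊤ : Subgroup G).lowerCentralSeries j) :
    ⁅gcls i a ha, gcls j b hb⁆ = gcls (i + j + 1) ⁅a, b⁆ (lcs_comm_mem ha hb) :=
  (sumBracket_eq _ _).trans (grBracket_cls i j a b ha hb)

/-- The class of a group element in degree one. -/
def cl (g : G) : Piece G 0 := pcls 0 g (Subgroup.mem_top g)

theorem mem_zero (g : G) : g ∈ (⊤ : Subgroup G).lowerCentralSeries 0 := Subgroup.mem_top g

theorem incl_cl (g : G) : inclOne G (cl g) = gcls 0 g (mem_zero g) := rfl

theorem cl_surj (v : Piece G 0) : ∃ g, cl g = v := by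
  obtain ⟨⟨g, h⟩⟩ := v
  exact ⟨g, rfl⟩

/-- A function on the `k`-th term that is additive and kills the next term descends. -/
def descend (k : ℕ) (f : G → ℤ)
    (hf : ∀ a ∈ (⊤ : Subgroup G).lowerCentralSeries k, ∀ b ∈ (⊤ : Subgroup G).lowerCentralSeries k,
      f (a * b) = f a + f b)
    (h0 : ∀ a ∈ (⊤ : Subgroup G).lowerCentralSeries (k + 1), f a = 0) : Piece G k →+ ℤ :=
  MonoidHom.toAdditiveLeft
    (QuotientGroup.lift (((⊤ : Subgroup G).lowerCentralSeries (k + 1)).subgroupOf
      ((⊤ : Subgroup G).lowerCentralSeries k))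
      (MonoidHom.mk' (fun a => Multiplicative.ofAdd (f (a : G)))
        (fun a b => congrArg Multiplicative.ofAdd (hf a a.2 b b.2)))
      (fun a ha => congrArg Multiplicative.ofAdd (h0 a ha)))

theorem descend_mk (k : ℕ) (f : G → ℤ) (hf) (h0) (g : G)
    (h : g ∈ (⊤ : Subgroup G).lowerCentralSeries k) :
    descend k f hf h0 (pcls k g h) = f g := rfl

theorem add_one_eq_zero {f : G → ℤ} (hf : ∀ a b, f (a * b) = f a + f b) : f 1 = 0 := by
  have := hf 1 1
  rw [mul_one] at this
  linarith

theorem add_inv {f : G → ℤ} (hf : ∀ a b, f (a * b) = f a + f b) (a : G) : f a⁻¹ = - f a := by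
  have := hf a a⁻¹
  rw [mul_inv_cancel, add_one_eq_zero hf] at this
  linarith

theorem add_vanish {f : G → ℤ} (hf : ∀ a b, f (a * b) = f a + f b) :
    ∀ a ∈ (⊤ : Subgroup G).lowerCentralSeries (0 + 1), f a = 0 := by
  intro a ha
  rw [Subgroup.mem_lowerCentralSeries_succ_iff] at ha
  induction ha using Subgroup.closure_induction with
  | mem x hx =>
    obtain ⟨p, -, q, -, rfl⟩ := hx
    simp only [commutatorElement_def, hf, add_inv hf]; ring
  | one => exact add_one_eq_zero hf
  | mul x y _ _ hx hy => rw [hf, hx, hy, add_zero]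
  | inv x _ hx => rw [add_inv hf, hx, neg_zero]

/-- The abstract argument. -/
theorem heis (μ p q θ : G → ℤ) (hμ : ∀ a b, μ (a * b) = μ a + μ b)
    (hp : ∀ a b, p (a * b) = p a + p b) (hq : ∀ a b, q (a * b) = q a + q b)
    (hθ : ∀ a b, θ (a * b) = θ a + θ b + (μ a * p b + q a * μ b))
    (x y z : G) (hxyz : ⁅x, ⁅y, z⁆⁆ = 1)
    (hne : μ x * (μ y * (p z - q z) - (p y - q y) * μ z) ≠ 0) :
    ¬ QuadraticUpToTorsion (inclOne G) := by
  have hκ : ∀ a b, (fun g => p g - q g) (a * b) = (fun g => p g - q g) a + (fun g => p g - q g) b := by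
    intro a b; simp only [hp, hq]; ring
  have hcomm : ∀ a b : G, θ ⁅a, b⁆ = μ a * (p b - q b) - (p a - q a) * μ b := by
    intro a b
    have m1 : ⁅a, b⁆ ∈ (⊤ : Subgroup G).lowerCentralSeries (0 + 1) :=
      lcs_comm_top_mem (k := 0) (Subgroup.mem_top a) b
    have e : ⁅a, b⁆ * (b * a) = a * b := by simp [commutatorElement_def, mul_assoc]
    have h1 := hθ ⁅a, b⁆ (b * a)
    rw [e, hθ, hθ, add_vanish hμ _ m1, add_vanish hq _ m1] at h1
    linarith
  have hθ1 : ∀ a ∈ (⊤ : Subgroup G).lowerCentralSeries 1,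
      ∀ b ∈ (⊤ : Subgroup G).lowerCentralSeries 1, θ (a * b) = θ a + θ b := by
    intro a ha b _
    rw [hθ, add_vanish hμ _ ha, add_vanish hq _ ha]; ring
  have hθone : θ 1 = 0 := by
    have := hθ1 1 (one_mem _) 1 (one_mem _)
    rw [mul_one] at this
    linarith
  have hθ0 : ∀ a ∈ (⊤ : Subgroup G).lowerCentralSeries (1 + 1), θ a = 0 := by
    intro a ha
    rw [Subgroup.mem_lowerCentralSeries_succ_iff] at ha
    induction ha using Subgroup.closure_induction with
    | mem x hx =>
      obtain ⟨s, hs, t, -, rfl⟩ := hx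
      rw [hcomm, add_vanish hμ _ hs, add_vanish hp _ hs, add_vanish hq _ hs]; ring
    | one => exact hθone
    | mul x y hx' hy' hx hy =>
      rw [hθ1 x (lcs_succ_le 1 hx') y (lcs_succ_le 1 hy'), hx, hy, add_zero]
    | inv x hx' hx =>
      have := hθ1 x (lcs_succ_le 1 hx') x⁻¹ (inv_mem (lcs_succ_le 1 hx'))
      rw [mul_inv_cancel, hθone, hx] at this
      linarith
  let μ' : Piece G 0 →+ ℤ := descend 0 μ (fun a _ b _ => hμ a b) (add_vanish hμ)
  let κ' : Piece G 0 →+ ℤ := descend 0 (fun g => p g - q g) (fun a _ b _ => hκ a b) (add_vanish hκ)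
  let θ1 : Piece G 1 →+ ℤ := descend 1 θ hθ1 hθ0
  let θ' : Gr G →+ ℤ := θ1.comp (DFinsupp.evalAddMonoidHom 1)
  have hθ' : ∀ g h, θ' (gcls 1 g h) = θ g := by
    intro g h
    change θ1 ((DirectSum.of (Piece G) 1 (pcls 1 g h)) 1) = θ1 (pcls 1 g h)
    rw [DirectSum.of_eq_same]
  let f : Piece G 0 →+ Matrix (Fin 2) (Fin 2) ℤ :=
    AddMonoidHom.mk' (fun v => !![μ' v, κ' v; 0, 0]) (by
      intro a b; ext i j; fin_cases i <;> fin_cases j <;> simp)
  let ψ : FreeLieRing (Piece G 0) →ₗ⁅ℤ⁆ Matrix (Fin 2) (Fin 2) ℤ := FreeLieRing.extend f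
  have hψ : ∀ v, ψ (FreeLieRing.gen v) = !![μ' v, κ' v; 0, 0] := fun v => lift_gen f v
  have hbr : ∀ a b c d : ℤ, ⁅(!![a, b; 0, 0] : Matrix (Fin 2) (Fin 2) ℤ), !![c, d; 0, 0]⁆ =
      (!![0, a * d - b * c; 0, 0] : Matrix (Fin 2) (Fin 2) ℤ) := by
    intro a b c d
    rw [Ring.lie_def]
    ext i j; fin_cases i <;> fin_cases j <;> simp <;> ring
  have key : ∀ w ∈ FreeLieRing.degTwo (Piece G 0), ψ w = !![0, θ' (natMap G w); 0, 0] := by
    intro w hw
    induction hw using AddSubgroup.closure_induction with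
    | mem w hw =>
      obtain ⟨a', b', rfl⟩ := hw
      obtain ⟨a, rfl⟩ := cl_surj a'
      obtain ⟨b, rfl⟩ := cl_surj b'
      rw [LieHom.map_lie, LieHom.map_lie, hψ, hψ, hbr, natMap_gen, natMap_gen, incl_cl, incl_cl]
      have : θ' ⁅gcls 0 a (mem_zero a), gcls 0 b (mem_zero b)⁆ =
          μ a * (p b - q b) - (p a - q a) * μ b := by
        rw [← hcomm, lie_gcls]
        exact hθ' _ _
      exact congrArg (fun t : ℤ => (!![0, t; 0, 0] : Matrix (Fin 2) (Fin 2) ℤ)) this.symm
    | zero => ext i j; fin_cases i <;> fin_cases j <;> simp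
    | add x y _ _ hx hy =>
      rw [map_add, map_add, map_add, hx, hy]; ext i j; fin_cases i <;> fin_cases j <;> simp
    | neg x _ hx =>
      rw [map_neg, map_neg, map_neg, hx]; ext i j; fin_cases i <;> fin_cases j <;> simp
  have hle : quadIdeal (inclOne G) ≤ ψ.ker := by
    apply LieSubmodule.lieSpan_le.2
    rintro w ⟨h1, h2⟩
    apply LieHom.mem_ker.2
    have h1' : natMap G w = 0 := h1
    rw [key w h2, h1']
    ext i j; fin_cases i <;> fin_cases j <;> simp
  intro hQ
  have hker : natMap G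
      ⁅FreeLieRing.gen (cl x), ⁅FreeLieRing.gen (cl y), FreeLieRing.gen (cl z)⁆⁆ = 0 := by
    rw [LieHom.map_lie, LieHom.map_lie, natMap_gen, natMap_gen, natMap_gen, incl_cl, incl_cl,
      incl_cl, lie_gcls, lie_gcls]
    exact cls_eq_zero _ _ hxyz
  · obtain ⟨m, hm, hmem⟩ := hQ _ hker
    have h1 := LieHom.mem_ker.1 (hle hmem)
    rw [map_smul, LieHom.map_lie, LieHom.map_lie, hψ, hψ, hψ, hbr, hbr] at h1
    have h2 := congrFun (congrFun h1 0) 1
    have e1 : ∀ g : G, μ' (cl g) = μ g := fun g => rfl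
    have e2 : ∀ g : G, κ' (cl g) = p g - q g := fun g => rfl
    simp only [e1, e2] at h2
    simp at h2
    rcases h2 with h2 | h2 | h2
    · exact hm h2
    · exact hne (by rw [h2, zero_mul])
    · exact hne (by rw [h2, mul_zero])

end General

open FreeGroup in
/-- The endomorphism that sends the first generator to `u * x * v` and fixes the other two. -/
def endo (u v : FreeGroup (Fin 3)) : FreeGroup (Fin 3) →* FreeGroup (Fin 3) :=
  FreeGroup.lift ![u * of 0 * v, of 1, of 2]

@[simp] theorem endo_0 (u v) : endo u v (FreeGroup.of 0) = u * FreeGroup.of 0 * v := by simp [endo]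
@[simp] theorem endo_1 (u v) : endo u v (FreeGroup.of 1) = FreeGroup.of 1 := by simp [endo]
@[simp] theorem endo_2 (u v) : endo u v (FreeGroup.of 2) = FreeGroup.of 2 := by simp [endo]

/-- The automorphism given by `endo u v` when `u` and `v` do not involve the first generator. -/
def aut (u v : FreeGroup (Fin 3)) (hu : ∀ s t, endo s t u = u) (hv : ∀ s t, endo s t v = v) :
    MulAut (FreeGroup (Fin 3)) :=
  MonoidHom.toMulEquiv (endo u v) (endo u⁻¹ v⁻¹)
    (by ext i; fin_cases i <;> simp [hu, hv, mul_assoc])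
    (by ext i; fin_cases i <;> simp [hu, hv, mul_assoc])

theorem aut_apply (u v hu hv x) : aut u v hu hv x = endo u v x := rfl
theorem aut_inv_apply (u v hu hv x) : MulEquiv.symm (aut u v hu hv) x = endo u⁻¹ v⁻¹ x := rfl

theorem aut_mem (u v hu hv) (h : Abelianization.of (u * v) = 1) : aut u v hu hv ∈ IA 3 := by
  have : Abelianization.of.comp (endo u v) = Abelianization.of := by
    ext i
    fin_cases i
    · simp only [map_mul] at h
      simp [mul_right_comm, h]
    · simp
    · simp
  exact fun x => DFunLike.congr_fun this x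

/-- The commutator of the second and third generators. -/
def w12 : FreeGroup (Fin 3) := FreeGroup.of 1 * FreeGroup.of 2 * (FreeGroup.of 1)⁻¹ * (FreeGroup.of 2)⁻¹

theorem endo_w12 (s t) : endo s t w12 = w12 := by simp [w12]

theorem ab_w12 : Abelianization.of w12 = 1 := by
  simp [w12]

/-- Left multiplication of the first generator by the commutator. -/
def lam : IA 3 := ⟨aut w12 1 endo_w12 (by simp), aut_mem _ _ _ _ (by simp [ab_w12])⟩

/-- Right multiplication of the first generator by the commutator. -/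
def rho : IA 3 := ⟨aut 1 w12 (by simp) endo_w12, aut_mem _ _ _ _ (by simp [ab_w12])⟩

/-- Conjugation of the first generator by the second. -/
def con : IA 3 := ⟨aut (FreeGroup.of 1) (FreeGroup.of 1)⁻¹ (by simp) (by simp),
  aut_mem _ _ _ _ (by simp)⟩

theorem rel : ⁅lam, ⁅rho, con⁆⁆ = 1 := by
  apply Subtype.ext
  apply MulEquiv.toMonoidHom_injective
  apply FreeGroup.ext_hom
  intro i
  fin_cases i <;>
    simp [commutatorElement_def, lam, rho, con, aut_apply, aut_inv_apply, endo_w12, mul_assoc]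

theorem main : ¬ QuadraticUpToTorsion (inclOne (IA 3)) := by
  refine heis (fun φ => c2 φ 0 1 2) (fun φ => c2 φ 0 1 0) (fun φ => c2 φ 2 1 2)
    (fun φ => c3 φ 0 1 1 2) (fun a b => c2_mul a b _ _ _) (fun a b => c2_mul a b _ _ _)
    (fun a b => c2_mul a b _ _ _) c3_mul lam rho con rel ?_
  simp [c2, lam, rho, con, aut_apply, w12, magnus_of]

end Pool.Agent.P.MP_df4ecf_al
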